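import Pool.Agent.MP_3ce0a0_al.H79.SpecT

/-! The action on homology, and the cycles of the quotient graph. -/

namespace Pool.Agent.MP_3ce0a0_al.H21

open Pool.Agent.MP_3ce0a0_al.H79

theorem ab_mul {m : ℕ} (x y : FG m) : ab (x * y) = ab x + ab y := by
  simp [ab]

theorem ab_one {m : ℕ} : ab (1 : FG m) = 0 := by
  simp [ab]

theorem ab_inv {m : ℕ} (x : FG m) : ab x⁻¹ = -ab x := by
  simp [ab]

theorem ab_of {m : ℕ} (i : Fin m) : ab (FreeGroup.of i) = Pi.single i 1 := by
  simp [ab]

/-- The linear map induced by an additive function on the free group. -/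
noncomputable def lin {m : ℕ} {A : Type} [AddCommGroup A] [Module ℂ A] (g : FG m → A) :
    HV m →ₗ[ℂ] A :=
  Fintype.linearCombination ℂ fun i => g (FreeGroup.of i)

theorem lin_ab {m : ℕ} {A : Type} [AddCommGroup A] [Module ℂ A] (g : FG m → A)
    (hg : ∀ x y, g (x * y) = g x + g y) (x : FG m) : lin g (ab x) = g x := by
  have h1 : g 1 = 0 := by simpa using hg 1 1
  induction x using FreeGroup.induction_on with
  | C1 => rw [ab_one, map_zero, h1]
  | of i => rw [ab_of, lin, Fintype.linearCombination_apply_single, one_smul]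
  | inv_of i hi =>
    rw [ab_inv, map_neg, hi]
    have := hg (FreeGroup.of i)⁻¹ (FreeGroup.of i)
    rw [inv_mul_cancel, h1] at this
    exact (eq_neg_of_add_eq_zero_left this.symm).symm
  | mul x y hx hy => rw [ab_mul, map_add, hx, hy, hg]

theorem ext_ab {m : ℕ} {A : Type} [AddCommGroup A] [Module ℂ A] {f g : HV m →ₗ[ℂ] A}
    (h : ∀ x, f (ab x) = g (ab x)) : f = g := by
  refine (Pi.basisFun ℂ (Fin m)).ext fun i => ?_
  rw [Pi.basisFun_apply, ← ab_of]
  exact h _

/-- The linear map of an automorphism. -/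
noncomputable def La {m : ℕ} (α : MulAut (FG m)) : HV m →ₗ[ℂ] HV m := lin fun x => ab (α x)

theorem La_ab {m : ℕ} (α : MulAut (FG m)) (x : FG m) : La α (ab x) = ab (α x) :=
  lin_ab _ (fun x y => by rw [map_mul, ab_mul]) x

/-- The linear automorphism of an automorphism. -/
noncomputable def Le {m : ℕ} (α : MulAut (FG m)) : HV m ≃ₗ[ℂ] HV m :=
  LinearEquiv.ofLinearMap (La α) (La α⁻¹)
    (ext_ab fun x => by simp [La_ab])
    (ext_ab fun x => by simp [La_ab])

theorem Le_ab {m : ℕ} (α : MulAut (FG m)) (x : FG m) : Le α (ab x) = ab (α x) := La_ab α x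

/-- The representation of the automorphism group. -/
noncomputable def Lh (m : ℕ) : MulAut (FG m) →* (HV m ≃ₗ[ℂ] HV m) :=
  MonoidHom.mk' Le fun α β => by
    apply LinearEquiv.toLinearMap_injective
    refine ext_ab fun x => ?_
    simp [Le_ab]

theorem srep : SRep := by
  intro m
  refine ⟨QuotientGroup.lift (Inn (FG m)) (Lh m) ?_, fun α x => Le_ab α x⟩
  rintro _ ⟨y, rfl⟩
  rw [MonoidHom.mem_ker]
  apply LinearEquiv.toLinearMap_injective
  refine ext_ab fun x => ?_
  have : Lh m (MulAut.conj y) (ab x) = ab x := by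
    rw [show Lh m (MulAut.conj y) (ab x) = _ from Le_ab _ x, MulAut.conj_apply, ab_mul, ab_mul,
      ab_inv]
    abel
  simpa using this

theorem const_of {V Ed A : Type} {o t : Ed → V} (φ : V → A) (h : ∀ e, φ (t e) = φ (o e))
    {u v : V} (huv : Lnk o t (fun _ => True) u v) : φ u = φ v := by
  induction huv with
  | refl => rfl
  | tail _ hs ih =>
    obtain ⟨e, -, ⟨h1, h2⟩ | ⟨h1, h2⟩⟩ := hs
    · rw [ih, ← h1, ← h2, h]
    · rw [ih, ← h1, ← h2, h]

theorem fin_sep {V Ed : Type} {o t : Ed → V} {side : Ed → Set V}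
    (h : ∀ e e', e' ≠ e → (o e' ∈ side e ↔ t e' ∈ side e)) {u v : V}
    (huv : Lnk o t (fun _ => True) u v) : {e | ¬(v ∈ side e ↔ u ∈ side e)}.Finite := by
  induction huv with
  | refl => simp
  | tail _ hs ih =>
    obtain ⟨d, -, hd⟩ := hs
    refine (ih.insert d).subset fun e he => ?_
    by_cases hde : d = e
    · exact Or.inl hde.symm
    · right
      have := h e d hde
      rcases hd with ⟨h1, h2⟩ | ⟨h1, h2⟩
      · rw [h1, h2] at this
        exact fun c => he (this.symm.trans c)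
      · rw [h1, h2] at this
        exact fun c => he (this.trans c)

open Classical in
theorem exists_p {V Ed Ed' : Type} {o t : Ed → V} {side : Ed → Set V} (v0 : V)
    (hc : ∀ u v, Lnk o t (fun _ => True) u v)
    (h : ∀ e, t e ∈ side e ∧ o e ∉ side e ∧ ∀ e', e' ≠ e → (o e' ∈ side e ↔ t e' ∈ side e))
    (pe : Ed → Ed') :
    ∃ p : V → Ed' → ℂ, ∀ e, p (t e) - p (o e) = Pi.single (pe e) 1 := by
  have hf : ∀ v, (Function.support fun e =>
      (if v ∈ side e then (1 : ℂ) else 0) - if v0 ∈ side e then 1 else 0).Finite := by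
    intro v
    refine (fin_sep (fun e => (h e).2.2) (hc v0 v)).subset fun e he c => he ?_
    simp only [c, sub_self]
  let P : V → Ed →₀ ℂ := fun v => Finsupp.ofSupportFinite _ (hf v)
  have hP : ∀ e, P (t e) - P (o e) = Finsupp.single e 1 := by
    intro e
    ext d
    simp only [P, Finsupp.sub_apply, Finsupp.ofSupportFinite_coe, sub_sub_sub_cancel_right]
    by_cases hd : e = d
    · subst hd
      simp [(h e).1, (h e).2.1]
    · simp [(h d).2.2 e hd, hd]
  refine ⟨fun v => Finsupp.lmapDomain ℂ ℂ pe (P v), fun e => ?_⟩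
  rw [← Finsupp.coe_sub, ← map_sub, hP, Finsupp.lmapDomain_apply, Finsupp.mapDomain_single,
    Finsupp.single_eq_pi_single]

theorem two_le {A : Type} [Finite A] {P : A → Prop} {a b : A} (ha : P a) (hb : P b) (h : a ≠ b) :
    2 ≤ Nat.card {e // P e} := by
  have : Nontrivial {e // P e} := ⟨⟨a, ha⟩, ⟨b, hb⟩, fun c => h (congrArg Subtype.val c)⟩
  exact Finite.one_lt_card

theorem one_le {A : Type} [Finite A] {P : A → Prop} {a : A} (ha : P a) :
    1 ≤ Nat.card {e // P e} := by
  have : Nonempty {e // P e} := ⟨⟨a, ha⟩⟩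
  exact Nat.card_pos

open Classical in
/-- The boundary map. -/
noncomputable def bd {V' Ed' : Type} [Fintype Ed'] (o' t' : Ed' → V') :
    (Ed' → ℂ) →ₗ[ℂ] (V' → ℂ) :=
  Fintype.linearCombination ℂ fun e => Pi.single (t' e) 1 - Pi.single (o' e) 1

theorem cyc_iff {V' Ed' : Type} [Fintype Ed'] (o' t' : Ed' → V') (c : Ed' → ℂ) :
    Cyc o' t' c ↔ bd o' t' c = 0 := by
  classical
  rw [Cyc, funext_iff]
  refine forall_congr' fun v => ?_
  rw [← sub_eq_zero, ← Finset.sum_sub_distrib, bd, Fintype.linearCombination_apply,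
    Finset.sum_apply, Pi.zero_apply]
  refine Eq.congr_left (Finset.sum_congr rfl fun e _ => ?_)
  simp only [Pi.smul_apply, Pi.sub_apply, Pi.single_apply, smul_eq_mul, eq_comm (a := v)]
  split_ifs <;> simp

theorem sqa : SQA := by
  classical
  intro E _ m ι V Ed V' Ed' _ _ _ _ o t side o' t' pv pe hι hT hC hQ
  obtain ⟨ho, ht, ⟨v0⟩, hc, hs⟩ := hT
  obtain ⟨hfree, -, hval⟩ := hC
  obtain ⟨spv, spe, qv, qe, ko, kt⟩ := hQ
  refine ⟨fun u v => ?_, fun v => ?_, ?_⟩
  · obtain ⟨u, rfl⟩ := spv u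
    obtain ⟨v, rfl⟩ := spv v
    refine Relation.ReflTransGen.lift pv ?_ u v (hc u v)
    rintro a b ⟨e, -, ⟨h1, h2⟩ | ⟨h1, h2⟩⟩
    · exact ⟨pe e, trivial, Or.inl ⟨by rw [ko, h1], by rw [kt, h2]⟩⟩
    · exact ⟨pe e, trivial, Or.inr ⟨by rw [ko, h1], by rw [kt, h2]⟩⟩
  · obtain ⟨v, rfl⟩ := spv v
    obtain ⟨e1, e2, hne, h1 | h1, h2 | h2⟩ := hval v
    · have : pe e1 ≠ pe e2 := fun c => by
        obtain ⟨f, hf, e⟩ := (qe _ _).1 c
        have := hfree f hf v (by rw [← h1, ← ho, e, h1, h2])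
        exact hne (by rw [← e, this, one_smul])
      exact (two_le (P := fun e => o' e = pv v) (by rw [ko, h1]) (by rw [ko, h2]) this).trans
        (Nat.le_add_right _ _)
    · exact add_le_add (one_le (P := fun e => o' e = pv v) (a := pe e1) (by rw [ko, h1]))
        (one_le (P := fun e => t' e = pv v) (a := pe e2) (by rw [kt, h2]))
    · exact add_le_add (one_le (P := fun e => o' e = pv v) (a := pe e2) (by rw [ko, h2]))
        (one_le (P := fun e => t' e = pv v) (a := pe e1) (by rw [kt, h1]))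
    · have : pe e1 ≠ pe e2 := fun c => by
        obtain ⟨f, hf, e⟩ := (qe _ _).1 c
        have := hfree f hf v (by rw [← h1, ← ht, e, h1, h2])
        exact hne (by rw [← e, this, one_smul])
      exact (two_le (P := fun e => t' e = pv v) (by rw [kt, h1]) (by rw [kt, h2]) this).trans
        (Nat.le_add_left _ _)
  obtain ⟨p, hp⟩ := exists_p v0 hc hs pe
  have pvx : ∀ x v, pv (ι x • v) = pv v := fun x v => ((qv _ _).2 ⟨ι x, ⟨x, rfl⟩, rfl⟩).symm
  have pex : ∀ x e, pe (ι x • e) = pe e := fun x e => ((qe _ _).2 ⟨ι x, ⟨x, rfl⟩, rfl⟩).symm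
  have hind : ∀ x u v, p (ι x • u) - p u = p (ι x • v) - p v := fun x u v =>
    const_of (fun v => p (ι x • v) - p v) (fun e => by
      have h1 := hp (ι x • e)
      rw [pex, ← hp e, ho, ht] at h1
      linear_combination h1) (hc u v)
  let j : HV m →ₗ[ℂ] (Ed' → ℂ) := lin fun x => p (ι x • v0) - p v0
  have hj : ∀ x v, j (ab x) = p (ι x • v) - p v := fun x v => by
    rw [hind x v v0]
    refine lin_ab (fun x => p (ι x • v0) - p v0) (fun x y => ?_) x
    rw [map_mul, mul_smul, ← hind x (ι y • v0) v0]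
    ring
  let rep : V' → V := Function.surjInv spv
  have hx : ∀ v, ∃ x, ι x • rep (pv v) = v := fun v => by
    obtain ⟨_, ⟨x, rfl⟩, e⟩ := (qv (rep (pv v)) v).1 (Function.surjInv_eq spv _)
    exact ⟨x, e⟩
  choose X hX using hx
  have hXm : ∀ y v, X (ι y • v) = y * X v := fun y v => by
    have h1 := hX (ι y • v)
    rw [pvx] at h1
    have h2 : ι ((y * X v)⁻¹ * X (ι y • v)) • rep (pv v) = rep (pv v) := by
      rw [map_mul, mul_smul, h1, map_inv, inv_smul_eq_iff, map_mul, mul_smul, hX]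
    have h3 := hfree _ ⟨_, rfl⟩ _ h2
    rw [← map_one ι] at h3
    exact (inv_mul_eq_one.1 (hι h3)).symm
  let le : Ed' → Ed := Function.surjInv spe
  have hle : ∀ e', pe (le e') = e' := Function.surjInv_eq spe
  let R : (Ed' → ℂ) →ₗ[ℂ] HV m :=
    Fintype.linearCombination ℂ fun e' => ab (X (t (le e'))) - ab (X (o (le e')))
  have hR : ∀ e, R (Pi.single (pe e) 1) = ab (X (t e)) - ab (X (o e)) := fun e => by
    obtain ⟨_, ⟨y, rfl⟩, e1⟩ := (qe e (le (pe e))).1 (hle _).symm
    simp only [R, Fintype.linearCombination_apply_single, one_smul]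
    rw [← e1, ho, ht, hXm, hXm, ab_mul, ab_mul]
    abel
  have hRj : R ∘ₗ j = LinearMap.id := ext_ab fun x => by
    have h1 := const_of (fun v => R (p v) - ab (X v)) (fun e => by
      have h2 := hR e
      rw [← hp, map_sub] at h2
      linear_combination h2) (hc (ι x • v0) v0)
    simp only [hXm, ab_mul] at h1
    rw [LinearMap.comp_apply, hj x v0, map_sub, LinearMap.id_apply]
    linear_combination h1
  have hbs : ∀ e', bd o' t' (Pi.single e' 1) = Pi.single (t' e') 1 - Pi.single (o' e') 1 :=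
    fun e' => by simp only [bd, Fintype.linearCombination_apply_single, one_smul]
  have hbj : bd o' t' ∘ₗ j = 0 := ext_ab fun x => by
    have h1 := const_of (fun v => bd o' t' (p v) - Pi.single (pv v) 1) (fun e => by
      have h2 := hbs (pe e)
      rw [← hp, map_sub, ko, kt] at h2
      linear_combination h2) (hc (ι x • v0) v0)
    simp only [pvx] at h1
    rw [LinearMap.comp_apply, hj x v0, map_sub, LinearMap.zero_apply]
    linear_combination h1
  let Q : (V' → ℂ) →ₗ[ℂ] (Ed' → ℂ) := Fintype.linearCombination ℂ fun v' => p (rep v')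
  have hid : j ∘ₗ R + Q ∘ₗ bd o' t' = LinearMap.id := by
    refine (Pi.basisFun ℂ Ed').ext fun e' => ?_
    obtain ⟨e, rfl⟩ := spe e'
    rw [Pi.basisFun_apply, LinearMap.add_apply, LinearMap.comp_apply, LinearMap.comp_apply, hR,
      hbs, map_sub, map_sub, hj _ (rep (pv (t e))), hj _ (rep (pv (o e))), hX, hX, ko, kt,
      LinearMap.id_apply, ← hp]
    simp only [Q, Fintype.linearCombination_apply_single, one_smul]
    abel
  refine ⟨p, j, hp, hj, ?_, fun c => ?_⟩
  · intro a b hab
    have := congrArg R hab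
    rwa [← LinearMap.comp_apply, ← LinearMap.comp_apply, hRj] at this
  · rw [cyc_iff]
    constructor
    · rintro ⟨h, rfl⟩
      rw [← LinearMap.comp_apply, hbj, LinearMap.zero_apply]
    · intro h
      refine ⟨R c, ?_⟩
      have := LinearMap.congr_fun hid c
      rwa [LinearMap.add_apply, LinearMap.comp_apply, LinearMap.comp_apply, h, map_zero, add_zero,
        LinearMap.id_apply] at this

end Pool.Agent.MP_3ce0a0_al.H21
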